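import Pool.Agent.Q77.BT.Base

/-!
# Project BT (helper77), job APR: smooth approximation and charts
-/

set_option autoImplicit false

open MeasureTheory Set Metric Filter Topology
open scoped NNReal ContDiff Manifold

noncomputable section

namespace Pool.Agent.Q225.BT

open Pool.Agent.Q77.BT

theorem apr : S_APR := by
  intro m n K hK g hg e he
  obtain ⟨U, hU⟩ := ContinuousMap.exists_restrict_eq hK.isClosed
    (⟨K.domRestrict g, continuousOn_iff_continuous_domRestrict.1 hg⟩ : C(K, E n))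
  have hU' : ∀ x ∈ K, U x = g x := fun x hx =>
    congrArg (fun k : C(K, E n) => k ⟨x, hx⟩) hU
  obtain ⟨G0, hG0, hG0e, -⟩ := U.continuous.exists_contDiff_approx 1
    (ε := fun _ => e) continuous_const (fun _ => he)
  obtain ⟨R, hR⟩ := hK.isBounded.subset_closedBall (0 : E m)
  let χ : ContDiffBump (0 : E m) := ⟨max R 1, max R 1 + 1, by positivity, by linarith⟩
  have h1 : ContDiff ℝ 1 fun z => χ z • G0 z := χ.contDiff.smul hG0
  have h2 : HasCompactSupport fun z => χ z • G0 z := χ.hasCompactSupport.smul_right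
  obtain ⟨L, hL⟩ := h1.lipschitzWith_of_hasCompactSupport h2 one_ne_zero
  refine ⟨_, L, h1, hL, fun z hz => ?_⟩
  have h3 : χ z = 1 := χ.one_of_mem_closedBall
    (closedBall_subset_closedBall (le_max_left _ _) (hR hz))
  rw [h3, one_smul, ← hU' z hz, ← dist_eq_norm]
  exact (hG0e z).le

theorem cht : S_CHT := by
  intro m n M _ ⟨inst⟩ z0 hz0
  set φ := chartAt (E m) (⟨z0, hz0⟩ : M) with hφ
  have hsrc : (⟨z0, hz0⟩ : M) ∈ φ.source := mem_chart_source _ _
  set c0 := φ ⟨z0, hz0⟩ with hc0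
  have htgt : φ.target ∈ 𝓝 c0 := φ.open_target.mem_nhds (φ.map_source hsrc)
  obtain ⟨s, hs, hsub⟩ := Metric.nhds_basis_closedBall.mem_iff.1 htgt
  have hmem : ∀ y : E m, ‖y‖ ≤ 1 → c0 + s • y ∈ φ.target := by
    intro y hy
    apply hsub
    rw [mem_closedBall, dist_eq_norm, add_sub_cancel_left, norm_smul, Real.norm_of_nonneg hs.le]
    nlinarith
  have hopen : IsOpen (φ.source ∩ φ ⁻¹' ball c0 (s / 2)) := φ.isOpen_inter_preimage isOpen_ball
  obtain ⟨ρ, hρ, hball⟩ := Metric.isOpen_iff.1 hopen ⟨z0, hz0⟩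
    ⟨hsrc, by show φ ⟨z0, hz0⟩ ∈ ball c0 (s / 2); exact mem_ball_self (by linarith)⟩
  refine ⟨fun y => ((φ.symm (c0 + s • y) : M) : E n), ρ / 3, by linarith, ?_, ?_, ?_, ?_, ?_⟩
  · refine continuous_subtype_val.comp_continuousOn (φ.continuousOn_symm.comp
      (Continuous.continuousOn (by fun_prop)) fun y hy => hmem y (by
        rwa [mem_closedBall_zero_iff] at hy))
  · intro y hy y' hy' h
    rw [mem_closedBall_zero_iff] at hy hy'
    have h1 := φ.symm.injOn (hmem y hy) (hmem y' hy') (Subtype.val_injective h)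
    have h2 : s • y = s • y' := add_left_cancel h1
    exact smul_right_injective _ hs.ne' h2
  · intro y _
    exact (φ.symm (c0 + s • y) : M).2
  · show ((φ.symm (c0 + s • 0) : M) : E n) = z0
    rw [smul_zero, add_zero, hc0, φ.left_inv hsrc]
  · intro z hz hd
    have h1 : (⟨z, hz⟩ : M) ∈ φ.source ∩ φ ⁻¹' ball c0 (s / 2) := by
      apply hball
      rw [mem_ball, Subtype.dist_eq]
      show dist z z0 < ρ
      linarith
    refine ⟨s⁻¹ • (φ ⟨z, hz⟩ - c0), ?_, ?_⟩
    · have h2 := h1.2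
      rw [mem_preimage, mem_ball, dist_eq_norm] at h2
      rw [norm_smul, norm_inv, Real.norm_of_nonneg hs.le, inv_mul_le_iff₀ hs]
      linarith
    · show ((φ.symm (c0 + s • s⁻¹ • (φ ⟨z, hz⟩ - c0)) : M) : E n) = z
      rw [smul_inv_smul₀ hs.ne', add_sub_cancel, φ.left_inv h1.1]

end Pool.Agent.Q225.BT
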