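import Pool.Agent.Q77.BT.Base

/-!
# Project BT (helper77), job BET: the numbers beta and theta
-/

set_option autoImplicit false

open MeasureTheory Set Metric Filter Topology
open scoped NNReal

noncomputable section

namespace Pool.Agent.Q225.BT

open Pool.Agent.Q77.BT

theorem sSup_dist_nonneg {n : ℕ} (X : Set (E n)) (x : E n) (r : ℝ) (P : Submodule ℝ (E n)) :
    0 ≤ sSup {d : ℝ | ∃ z ∈ closedBall x r ∩ X, d = infDist z {w | w - x ∈ P}} := by
  apply Real.sSup_nonneg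
  rintro d ⟨z, -, rfl⟩
  exact infDist_nonneg

theorem beta_nonneg {n : ℕ} (m : ℕ) (X : Set (E n)) (x : E n) (r : ℝ) (hr : 0 < r) :
    0 ≤ beta m X x r := by
  unfold beta
  refine mul_nonneg (inv_nonneg.2 hr.le) (Real.sInf_nonneg ?_)
  rintro s ⟨P, -, rfl⟩
  exact sSup_dist_nonneg X x r P

theorem exists_submodule {m n : ℕ} (h : m ≤ n) :
    ∃ P : Submodule ℝ (E n), Module.finrank ℝ P = m := by
  have hli : LinearIndependent ℝ (fun i : Fin m =>
      EuclideanSpace.basisFun (Fin n) ℝ (Fin.castLE h i)) :=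
    (EuclideanSpace.basisFun (Fin n) ℝ).orthonormal.linearIndependent.comp _
      (Fin.castLE_injective h)
  exact ⟨_, by rw [finrank_span_eq_card hli, Fintype.card_fin]⟩

theorem bet : S_BET := by
  intro m n X x r b hmn hr hb
  unfold beta at hb
  rw [inv_mul_lt_iff₀ hr] at hb
  obtain ⟨P0, hP0⟩ := exists_submodule hmn
  obtain ⟨s, ⟨P, hP, rfl⟩, hs⟩ := exists_lt_of_csInf_lt (by exact ⟨_, P0, hP0, rfl⟩) hb
  obtain ⟨ι, hι⟩ := exists_frame P hP
  refine ⟨ι, fun z hz hd => ?_⟩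
  have hx : x ∈ {w : E n | w - x ∈ P} := by
    show x - x ∈ P
    rw [sub_self]
    exact P.zero_mem
  have hbd : BddAbove {d : ℝ | ∃ z ∈ closedBall x r ∩ X, d = infDist z {w | w - x ∈ P}} := by
    refine ⟨r, ?_⟩
    rintro d ⟨z, ⟨hz1, -⟩, rfl⟩
    exact (infDist_le_dist_of_mem hx).trans hz1
  have h1 : infDist z {w | w - x ∈ P} ≤
      sSup {d : ℝ | ∃ z ∈ closedBall x r ∩ X, d = infDist z {w | w - x ∈ P}} :=
    le_csSup hbd ⟨z, ⟨hd, hz⟩, rfl⟩
  rw [← hι, infDist_eq] at h1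
  rw [hι] at h1
  rw [mul_comm]
  exact h1.trans hs.le

theorem the : S_THE := by
  intro m n X x r b δ ι hx hr hb hbδ hδ hX hs
  have hbr : 0 < b * r := mul_pos hb hr
  have hδ0 : 0 < δ := lt_of_lt_of_le hb hbδ
  unfold theta
  rw [inv_mul_le_iff₀ hr]
  have hbb : BddBelow {s : ℝ | ∃ P : Submodule ℝ (E n), Module.finrank ℝ P = m ∧
      s = hausdorffDist ({w | w - x ∈ P} ∩ closedBall x r) (X ∩ closedBall x r)} := by
    refine ⟨0, ?_⟩
    rintro s ⟨P, -, rfl⟩
    exact hausdorffDist_nonneg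
  refine (csInf_le hbb ⟨_, finrank_range ι, rfl⟩).trans ?_
  · have hle : b * r ≤ r * ((1 + δ ^ 2 / 2) * b) := by nlinarith [mul_pos (pow_pos hδ0 2) hbr]
    refine hausdorffDist_le_of_mem_dist (by linarith) ?_ ?_
    · rintro a ⟨⟨p, hp⟩, ha⟩
      have hp' : ι p = a - x := hp
      have hpn : ‖p‖ ≤ r := by
        rw [← LinearIsometry.norm_map ι p, hp', ← dist_eq_norm]
        exact ha
      have hb1 : 0 < 1 - b ^ 2 := by nlinarith
      set σ : ℝ := Real.sqrt (1 - b ^ 2) with hσ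
      have hσ0 : 0 ≤ σ := Real.sqrt_nonneg _
      have hσ2 : σ ^ 2 = 1 - b ^ 2 := Real.sq_sqrt hb1.le
      have hσ1 : σ ≤ 1 := by nlinarith [sq_nonneg b]
      have hσ3 : 1 - b ^ 2 ≤ σ := by nlinarith
      obtain ⟨z, hz, hzx, hzq⟩ := hs (σ • p) (by
        rw [norm_smul, Real.norm_of_nonneg hσ0, mul_pow, hσ2]
        have := mul_self_le_mul_self (norm_nonneg p) hpn
        nlinarith)
      refine ⟨z, ⟨hz, hzx⟩, ?_⟩
      have h1 := pyth_sub ι (z - x) p
      rw [hzq, hp'] at h1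
      have h2 := hX z hz hzx
      have h3 : ‖σ • p - p‖ = (1 - σ) * ‖p‖ := by
        have : σ • p - p = (σ - 1) • p := by rw [sub_smul, one_smul]
        rw [this, norm_smul, Real.norm_eq_abs, abs_of_nonpos (by linarith)]
        ring
      rw [h3] at h1
      have h4 : dist a z = ‖z - x - (a - x)‖ := by
        rw [dist_comm, dist_eq_norm]
        congr 1
        abel
      rw [h4]
      refine le_of_sq_le_sq ?_ (by linarith)
      rw [h1]
      have h5 : ((1 - σ) * ‖p‖) ^ 2 ≤ (b ^ 2 * r) ^ 2 := by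
        apply pow_le_pow_left₀ (mul_nonneg (by linarith) (norm_nonneg _))
        exact mul_le_mul (by linarith) hpn (norm_nonneg _) (by positivity)
      have h6 : ‖off ι (z - x)‖ ^ 2 ≤ (b * r) ^ 2 :=
        pow_le_pow_left₀ (norm_nonneg _) h2 2
      have h7 : b ^ 2 ≤ δ ^ 2 := pow_le_pow_left₀ hb.le hbδ 2
      have h8 : (b * r) ^ 2 * (b ^ 2) ≤ (b * r) ^ 2 * δ ^ 2 :=
        mul_le_mul_of_nonneg_left h7 (sq_nonneg _)
      have h9 : 0 ≤ (b * r) ^ 2 * (δ ^ 2) ^ 2 := by positivity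
      nlinarith
    · rintro z ⟨hz, hzx⟩
      refine ⟨x + ι (ad ι (z - x)), ⟨?_, ?_⟩, ?_⟩
      · show x + ι (ad ι (z - x)) - x ∈ LinearMap.range ι.toLinearMap
        rw [add_sub_cancel_left]
        exact ⟨_, rfl⟩
      · rw [mem_closedBall, dist_eq_norm, add_sub_cancel_left, LinearIsometry.norm_map]
        refine (norm_ad_le ι _).trans ?_
        rw [← dist_eq_norm]
        exact hzx
      · rw [dist_eq_norm, ← sub_sub, ← off_apply]
        exact (hX z hz hzx).trans hle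

end Pool.Agent.Q225.BT
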