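import Pool.Agent.Q77.BT.Base

/-!
# Project BT (helper77), job MS: measurable test functions
-/

set_option autoImplicit false

open MeasureTheory Set Metric Filter Topology
open scoped NNReal ENNReal BoundedContinuousFunction

noncomputable section

namespace Pool.Agent.Q225.BT

open Pool.Agent.Q77.BT

theorem int_map {m : ℕ} {U : Set (E m)} {f : E m → E m}
    (hf : Continuous f) {h : E m → ℝ} (hh : Continuous h) (χ : E m → ℝ) (hχ : Measurable χ) :
    ∫ w, χ w ∂(Measure.map f ((volume.restrict U).withDensity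
      (fun y => ((Real.toNNReal (h y) : ℝ≥0) : ℝ≥0∞)))) =
      ∫ y in U, max (h y) 0 * χ (f y) := by
  rw [integral_map hf.aemeasurable hχ.aestronglyMeasurable]
  rw [integral_withDensity_eq_integral_smul (hh.measurable.real_toNNReal)]
  refine integral_congr_ae (Filter.Eventually.of_forall fun y => ?_)
  show (Real.toNNReal (h y)) • χ (f y) = max (h y) 0 * χ (f y)
  rw [NNReal.smul_def, Real.coe_toNNReal', smul_eq_mul]

theorem integrable_aux {m : ℕ} {U : Set (E m)} (hU : Bornology.IsBounded U)
    {h : E m → ℝ} (hh : Continuous h) : IntegrableOn h U volume :=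
  (hh.continuousOn.integrableOn_compact
    (Metric.isCompact_of_isClosed_isBounded isClosed_closure hU.closure)).mono_set subset_closure

theorem finite_aux {m : ℕ} {U : Set (E m)} (hU : Bornology.IsBounded U) {f : E m → E m}
    {h : E m → ℝ} (hh : Continuous h) :
    IsFiniteMeasure (Measure.map f ((volume.restrict U).withDensity
      (fun y => ((Real.toNNReal (h y) : ℝ≥0) : ℝ≥0∞)))) := by
  have : IsFiniteMeasure ((volume.restrict U).withDensity
      (fun y => ((Real.toNNReal (h y) : ℝ≥0) : ℝ≥0∞))) :=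
    isFiniteMeasure_withDensity_ofReal (integrable_aux hU hh).2
  infer_instance

theorem ms : S_MS := by
  intro m U f g _ hU hf hg ρ ρ' hρ hyp ψ hψ hψb hψ0
  obtain ⟨C, hC⟩ := hψb
  -- the cut off function
  let κ : E m → ℝ := fun w => max 0 (min 1 ((ρ - ‖w‖) / (ρ - ρ')))
  have hκ : Continuous κ := by
    refine continuous_const.max (continuous_const.min ?_)
    exact (continuous_const.sub continuous_norm).div_const _
  have hκ1 : ∀ w, ‖w‖ ≤ ρ' → κ w = 1 := by
    intro w hw
    have h1 : 1 ≤ (ρ - ‖w‖) / (ρ - ρ') := by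
      rw [le_div_iff₀ (by linarith)]
      linarith
    show max 0 (min 1 ((ρ - ‖w‖) / (ρ - ρ'))) = 1
    rw [min_eq_left h1, max_eq_right zero_le_one]
  have hκ0 : ∀ w, ρ ≤ ‖w‖ → κ w = 0 := by
    intro w hw
    have h1 : (ρ - ‖w‖) / (ρ - ρ') ≤ 0 :=
      div_nonpos_of_nonpos_of_nonneg (by linarith) (by linarith)
    show max 0 (min 1 ((ρ - ‖w‖) / (ρ - ρ'))) = 0
    rw [max_eq_left]
    exact (min_le_right _ _).trans h1
  let h : E m → ℝ := fun y => κ (f y) * g y
  have hh : Continuous h := (hκ.comp hf).mul hg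
  set ν1 : Measure (E m) := Measure.map f ((volume.restrict U).withDensity
      (fun y => ((Real.toNNReal (h y) : ℝ≥0) : ℝ≥0∞))) with hν1
  set ν2 : Measure (E m) := Measure.map f ((volume.restrict U).withDensity
      (fun y => ((Real.toNNReal (-h y) : ℝ≥0) : ℝ≥0∞))) with hν2
  have : IsFiniteMeasure ν1 := finite_aux hU hh
  have : IsFiniteMeasure ν2 := finite_aux hU hh.neg
  -- the difference of the integrals
  have key : ∀ χ : E m → ℝ, Measurable χ → (∃ C : ℝ, ∀ w, |χ w| ≤ C) →
      ∫ w, χ w ∂ν1 - ∫ w, χ w ∂ν2 = ∫ y in U, h y * χ (f y) := by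
    intro χ hχ hb
    obtain ⟨C, hC⟩ := hb
    rw [hν1, hν2, int_map hf hh χ hχ, int_map hf (h := fun y => -h y) hh.neg χ hχ]
    have hi : ∀ k : E m → ℝ, Continuous k → IntegrableOn (fun y => k y * χ (f y)) U volume := by
      intro k hk
      refine Integrable.mul_bdd (c := C) (integrable_aux hU hk) ?_ ?_
      · exact (hχ.comp hf.measurable).aestronglyMeasurable
      · exact Filter.Eventually.of_forall fun y => hC (f y)
    rw [← integral_sub (hi (fun y => max (h y) 0) (hh.max continuous_const)) (hi (fun y => max (-h y) 0) (hh.neg.max continuous_const))]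
    refine integral_congr_ae (Filter.Eventually.of_forall fun y => ?_)
    show max (h y) 0 * χ (f y) - max (-h y) 0 * χ (f y) = h y * χ (f y)
    rw [← sub_mul]
    congr 1
    rcases le_total 0 (h y) with h0 | h0
    · rw [max_eq_left h0, max_eq_right (by linarith)]; ring
    · rw [max_eq_right h0, max_eq_left (by linarith)]; ring
  have heq : ν1 = ν2 := by
    refine ext_of_forall_integral_eq_of_IsFiniteMeasure fun χ => ?_
    have h1 := key χ χ.continuous.measurable ⟨‖χ‖, fun w => χ.norm_coe_le_norm w⟩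
    have h2 := hyp (fun w => κ w * χ w) (hκ.mul χ.continuous) (fun w hw => by
      show κ w * χ w = 0
      rw [hκ0 w hw, zero_mul])
    have h3 : ∫ y in U, h y * χ (f y) = 0 := by
      rw [← h2]
      refine integral_congr_ae (Filter.Eventually.of_forall fun y => ?_)
      show κ (f y) * g y * χ (f y) = κ (f y) * χ (f y) * g y
      ring
    linarith
  have h1 := key ψ hψ ⟨C, hC⟩
  rw [heq, sub_self] at h1
  rw [h1]
  refine integral_congr_ae (Filter.Eventually.of_forall fun y => ?_)
  show ψ (f y) * g y = κ (f y) * g y * ψ (f y)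
  rcases le_total ρ' ‖f y‖ with h0 | h0
  · rw [hψ0 _ h0]; ring
  · rw [hκ1 _ h0]; ring

end Pool.Agent.Q225.BT
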