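import Pool.Agent.Q77.BT.Base

/-!
# Project BT (helper77), job VEC: covers of the unit sphere, and one vector
-/

set_option autoImplicit false

open MeasureTheory Set Metric Filter Topology
open scoped NNReal ENNReal

noncomputable section

namespace Pool.Agent.Q225.BT

open Pool.Agent.Q77.BT

theorem vol_ball {m : ℕ} (x : E m) {r : ℝ} (hr : 0 < r) :
    volume (ball x r) = ENNReal.ofReal (r ^ m) * volume (ball (0 : E m) 1) := by
  rw [Measure.addHaar_ball_of_pos volume x hr, finrank_euclideanSpace, Fintype.card_fin]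

theorem vol_closedBall {m : ℕ} (x : E m) {r : ℝ} (hr : 0 ≤ r) :
    volume (closedBall x r) = ENNReal.ofReal (r ^ m) * volume (ball (0 : E m) 1) := by
  rw [Measure.addHaar_closedBall volume x hr, finrank_euclideanSpace, Fintype.card_fin]

theorem packing {m : ℕ} {s : ℝ} (hs : 0 < s) (hs1 : s ≤ 1) (T : Finset (E m))
    (hT : ∀ q ∈ T, ‖q‖ = 1) (hsep : ∀ q ∈ T, ∀ q' ∈ T, q ≠ q' → s < dist q q') :
    (T.card : ℝ) * (s / 2) ^ m + (1 - s / 2) ^ m ≤ (1 + s / 2) ^ m := by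
  have h0 : volume (ball (0 : E m) 1) ≠ 0 := (measure_ball_pos volume _ one_pos).ne'
  have h1 : volume (ball (0 : E m) 1) ≠ ⊤ := measure_ball_lt_top.ne
  have hU : volume (⋃ q ∈ T, ball q (s / 2)) =
      (T.card : ℝ≥0∞) * (ENNReal.ofReal ((s / 2) ^ m) * volume (ball (0 : E m) 1)) := by
    rw [measure_biUnion_finset]
    · rw [Finset.sum_congr rfl (fun q _ => vol_ball q (by linarith : (0 : ℝ) < s / 2)),
        Finset.sum_const, nsmul_eq_mul]
    · intro q hq q' hq' hne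
      exact ball_disjoint_ball (by linarith [hsep q hq q' hq' hne])
    · intro q _
      exact measurableSet_ball
  have hdis : Disjoint (⋃ q ∈ T, ball q (s / 2)) (ball (0 : E m) (1 - s / 2)) := by
    rw [Set.disjoint_left]
    intro y hy hy0
    rw [mem_iUnion₂] at hy
    obtain ⟨q, hq, hyq⟩ := hy
    rw [mem_ball_zero_iff] at hy0
    rw [mem_ball, dist_eq_norm] at hyq
    have h2 := norm_sub_norm_le q y
    rw [hT q hq, norm_sub_rev] at h2
    linarith
  have hsub : (⋃ q ∈ T, ball q (s / 2)) ∪ ball (0 : E m) (1 - s / 2) ⊆ ball 0 (1 + s / 2) := by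
    intro y hy
    rw [mem_ball_zero_iff]
    rcases hy with hy | hy
    · rw [mem_iUnion₂] at hy
      obtain ⟨q, hq, hyq⟩ := hy
      rw [mem_ball, dist_eq_norm] at hyq
      have h2 := norm_sub_norm_le y q
      rw [hT q hq] at h2
      linarith
    · rw [mem_ball_zero_iff] at hy
      linarith
  have h2 := measure_mono (μ := volume) hsub
  rw [measure_union hdis measurableSet_ball, hU, vol_ball _ (by linarith : (0 : ℝ) < 1 - s / 2),
    vol_ball _ (by linarith : (0 : ℝ) < 1 + s / 2), ← mul_assoc, ← add_mul,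
    ENNReal.mul_le_mul_iff_left h0 h1] at h2
  rw [← ENNReal.ofReal_natCast, ← ENNReal.ofReal_mul (Nat.cast_nonneg _),
    ← ENNReal.ofReal_add (by positivity) (pow_nonneg (by linarith) _)] at h2
  exact (ENNReal.ofReal_le_ofReal_iff (pow_nonneg (by linarith) _)).1 h2

/-- a maximal separated subset of the sphere -/
theorem maximal {m : ℕ} {s : ℝ} (hs : 0 < s) (hs1 : s ≤ 1) :
    ∃ T : Finset (E m), (∀ q ∈ T, ‖q‖ = 1) ∧
      (∀ q ∈ T, ∀ q' ∈ T, q ≠ q' → s < dist q q') ∧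
      ∀ p : E m, ‖p‖ = 1 → ∃ q ∈ T, ‖p - q‖ ≤ s := by
  classical
  let A : Set ℕ := {k | ∃ T : Finset (E m), (∀ q ∈ T, ‖q‖ = 1) ∧
      (∀ q ∈ T, ∀ q' ∈ T, q ≠ q' → s < dist q q') ∧ T.card = k}
  have hne : A.Nonempty := ⟨0, ∅, by simp, by simp, rfl⟩
  have hbd : BddAbove A := by
    refine ⟨⌈(1 + s / 2) ^ m / (s / 2) ^ m⌉₊, ?_⟩
    rintro k ⟨T, h1, h2, rfl⟩
    have h3 := packing hs hs1 T h1 h2
    have h4 : 0 ≤ (1 - s / 2) ^ m := pow_nonneg (by linarith) _
    have h5 : (T.card : ℝ) ≤ (1 + s / 2) ^ m / (s / 2) ^ m := by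
      rw [le_div_iff₀ (by positivity)]
      linarith
    exact_mod_cast h5.trans (Nat.le_ceil _)
  obtain ⟨T, h1, h2, h3⟩ := Nat.sSup_mem hne hbd
  refine ⟨T, h1, h2, fun p hp => ?_⟩
  by_contra hcon
  push Not at hcon
  have hpT : p ∉ T := fun h => by
    have := hcon p h
    rw [sub_self, norm_zero] at this
    linarith
  have h4 : (insert p T).card ∈ A := by
    refine ⟨insert p T, ?_, ?_, rfl⟩
    · intro q hq
      rcases Finset.mem_insert.1 hq with rfl | hq
      · exact hp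
      · exact h1 q hq
    · intro q hq q' hq' hne'
      rcases Finset.mem_insert.1 hq with e1 | e1 <;> rcases Finset.mem_insert.1 hq' with e2 | e2
      · exact absurd (e1.trans e2.symm) hne'
      · rw [e1, dist_eq_norm]; exact hcon _ e2
      · rw [e2, dist_comm, dist_eq_norm]; exact hcon _ e1
      · exact h2 q e1 q' e2 hne'
  have h5 := le_csSup hbd h4
  rw [Finset.card_insert_of_notMem hpT, h3] at h5
  omega

theorem sph : S_SPH := by
  intro m _ θ hθ
  have hc : Continuous fun s : ℝ => 2 ^ m * ((1 + s / 2) ^ m - (1 - s / 2) ^ m) := by fun_prop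
  have h0 : (2 : ℝ) ^ m * ((1 + (0 : ℝ) / 2) ^ m - (1 - (0 : ℝ) / 2) ^ m) < θ := by
    simpa using hθ
  have hev := (hc.tendsto 0).eventually_lt_const h0
  rw [Metric.eventually_nhds_iff] at hev
  obtain ⟨η, hη, hev⟩ := hev
  have hs : 0 < min (η / 2) 1 := lt_min (by linarith) one_pos
  obtain ⟨T, h1, h2, h3⟩ := maximal (m := m) hs (min_le_right _ _)
  refine ⟨min (η / 2) 1, T, hs, min_le_right _ _, h3, ?_⟩
  have h4 := packing hs (min_le_right _ _) T h1 h2
  have h5 := hev (y := min (η / 2) 1) (by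
    rw [Real.dist_eq, sub_zero, abs_of_pos hs]
    exact (min_le_left _ _).trans_lt (by linarith))
  set s := min (η / 2) 1
  have h6 : (T.card : ℝ) * s ^ m = 2 ^ m * ((T.card : ℝ) * (s / 2) ^ m) := by
    rw [div_pow]
    field_simp
  rw [h6]
  refine (mul_le_mul_of_nonneg_left ?_ (by positivity)).trans h5.le
  linarith

theorem vec : S_VEC := by
  intro m n hm Λ a ha
  set L : ℝ := max (Λ : ℝ) 1 with hL
  have hL1 : 1 ≤ L := le_max_right _ _
  have hΛL : (Λ : ℝ) ≤ L := le_max_left _ _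
  have hL0 : 0 < L := by linarith
  obtain ⟨s, T, hs, hs1, hcov, hcard⟩ := sph m hm ((a / (8 * L)) ^ m / 2) (by positivity)
  refine ⟨s * L, s / 4, by positivity, by positivity, fun ι x g hg => ?_⟩
  have h0 : volume (ball (0 : E m) 1) ≠ 0 := (measure_ball_pos volume _ one_pos).ne'
  have h1 : volume (ball (0 : E m) 1) ≠ ⊤ := measure_ball_lt_top.ne
  obtain ⟨v, hv, hvT⟩ : ∃ v ∈ ball (0 : E m) a, v ∉ ⋃ q ∈ T,
      closedBall (g (x + ι q)) (3 * s * L) := by
    by_contra hcon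
    push Not at hcon
    have h2 : volume (ball (0 : E m) a) ≤ volume (⋃ q ∈ T,
        closedBall (g (x + ι q)) (3 * s * L)) := measure_mono hcon
    have h3 := h2.trans (measure_biUnion_finset_le T _)
    rw [Finset.sum_congr rfl (fun q _ => vol_closedBall (g (x + ι q))
      (by positivity : (0 : ℝ) ≤ 3 * s * L)), Finset.sum_const, nsmul_eq_mul,
      vol_ball _ ha, ← mul_assoc, ENNReal.mul_le_mul_iff_left h0 h1, ← ENNReal.ofReal_natCast,
      ← ENNReal.ofReal_mul (Nat.cast_nonneg _),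
      ENNReal.ofReal_le_ofReal_iff (by positivity)] at h3
    have h4 : (T.card : ℝ) * (3 * s * L) ^ m = (T.card : ℝ) * s ^ m * (3 * L) ^ m := by
      rw [mul_assoc (T.card : ℝ), ← mul_pow, show s * (3 * L) = 3 * s * L by ring]
    rw [h4] at h3
    have h5 := h3.trans (mul_le_mul_of_nonneg_right hcard (by positivity))
    have h6 : (a / (8 * L)) ^ m / 2 * (3 * L) ^ m = (3 / 8) ^ m * a ^ m / 2 := by
      rw [div_mul_eq_mul_div, ← mul_pow, ← mul_pow]
      congr 2
      field_simp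
    rw [h6] at h5
    have h7 : (3 / 8 : ℝ) ^ m ≤ 1 := pow_le_one₀ (by norm_num) (by norm_num)
    have h8 : 0 < a ^ m := pow_pos ha m
    nlinarith
  rw [mem_ball_zero_iff] at hv
  refine ⟨v, hv.le, ?_⟩
  rintro z ⟨hz1, hz2⟩
  set w := ad ι (z - x) with hw
  rw [abs_le] at hz1
  have hw0 : 0 < ‖w‖ := by linarith [hz1.1]
  have hq0 : ‖(‖w‖⁻¹ • w)‖ = 1 := by
    rw [norm_smul, norm_inv, norm_norm, inv_mul_cancel₀ hw0.ne']
  obtain ⟨q, hqT, hq⟩ := hcov _ hq0
  have hwq0 : ‖w - ‖w‖⁻¹ • w‖ ≤ s / 4 := by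
    have : w - ‖w‖⁻¹ • w = (1 - ‖w‖⁻¹) • w := by rw [sub_smul, one_smul]
    rw [this, norm_smul, Real.norm_eq_abs]
    have h2 : |1 - ‖w‖⁻¹| * ‖w‖ = |‖w‖ - 1| := by
      rw [← abs_of_pos hw0, ← abs_mul, abs_of_pos hw0, sub_mul, one_mul, inv_mul_cancel₀ hw0.ne']
    rw [h2, abs_le]
    exact hz1
  have hwq : ‖w - q‖ ≤ s / 4 + s := by
    calc ‖w - q‖ = ‖(w - ‖w‖⁻¹ • w) + (‖w‖⁻¹ • w - q)‖ := by congr 1; abel
      _ ≤ _ := norm_add_le _ _
      _ ≤ _ := add_le_add hwq0 hq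
  have hdist : ‖z - (x + ι q)‖ ≤ 2 * s := by
    have h2 := norm_le_add ι (z - x - ι q)
    rw [map_sub (ad ι), map_sub (off ι), off_map, sub_zero, ad_map, ← hw] at h2
    rw [← sub_sub]
    linarith
  have hg1 : ‖g z - g (x + ι q)‖ ≤ L * (2 * s) := by
    have h2 := hg.dist_le_mul z (x + ι q)
    rw [dist_eq_norm, dist_eq_norm] at h2
    exact h2.trans (mul_le_mul hΛL hdist (norm_nonneg _) hL0.le)
  have hv2 : 3 * s * L < ‖v - g (x + ι q)‖ := by
    by_contra hcon
    apply hvT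
    rw [mem_iUnion₂]
    refine ⟨q, hqT, ?_⟩
    rw [mem_closedBall, dist_eq_norm]
    exact not_lt.1 hcon
  have h3 : ‖v - g (x + ι q)‖ ≤ ‖g z - v‖ + ‖g z - g (x + ι q)‖ := by
    calc ‖v - g (x + ι q)‖ = ‖(g z - g (x + ι q)) - (g z - v)‖ := by congr 1; abel
      _ ≤ _ := norm_sub_le _ _
      _ = _ := add_comm _ _
  nlinarith

end Pool.Agent.Q225.BT
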